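import Mathlib

/-!
Uniform bound on the LQR decay rate for skew-Hermitian dynamics (MP_25d917_an, Q1: proved).

Write `P = B * Bᴴ` and, for real `w`, `Z = i w - A` (skew-Hermitian).  The Riccati equation
gives the return difference identity
`|det (i w - A_cl)|² = det (P + Zᴴ Z)`.
As `rank P ≤ m < n`, the right-hand side grows by at least the factor `(d₂ / d₁)²` when `w` moves
from the centre of the spectrum of `-i A` (where `Zᴴ Z ≤ d₁²`, `d₁ = Δ / 2`) to distance `t`
(where `Zᴴ Z ≥ d₂²`, `d₂ = t - Δ / 2`), whereas it grows by at most `(1 + t / γ) ^ (2 n)` if all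
the eigenvalues of `A_cl` have real part at most `-γ`.  With `t = 2 Δ` this gives `γ ≤ 2 n Δ`.
-/

open Matrix Complex
open scoped ComplexOrder MatrixOrder

namespace Pool.Agent.Results.MP_25d917_an.DecayBound

section Definitions

variable {n m : ℕ}

/-- The controllability matrix `[B, A B, A² B, …, A ^ (n-1) B]` of the pair `(A, B)`; its column
with index `(k, j)` is the `j`-th column of `A ^ k * B`. -/
def controllabilityMatrix (A : Matrix (Fin n) (Fin n) ℂ) (B : Matrix (Fin n) (Fin m) ℂ) :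
    Matrix (Fin n) (Fin n × Fin m) ℂ :=
  Matrix.of fun i kj => (A ^ (kj.1 : ℕ) * B) i kj.2

/-- Controllability of the pair `(A, B)`, in the form of Kalman's rank condition. -/
def Controllable (A : Matrix (Fin n) (Fin n) ℂ) (B : Matrix (Fin n) (Fin m) ℂ) : Prop :=
  (controllabilityMatrix A B).rank = n

/-- `X` is a Hermitian positive definite solution of the algebraic Riccati equation
`A* X + X A - X B B* X + I = 0`. -/
def IsRiccatiSolution (A : Matrix (Fin n) (Fin n) ℂ) (B : Matrix (Fin n) (Fin m) ℂ)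
    (X : Matrix (Fin n) (Fin n) ℂ) : Prop :=
  X.PosDef ∧ Aᴴ * X + X * A - X * B * Bᴴ * X + 1 = 0

/-- The closed-loop matrix `A - B B* X`. -/
def closedLoop (A : Matrix (Fin n) (Fin n) ℂ) (B : Matrix (Fin n) (Fin m) ℂ)
    (X : Matrix (Fin n) (Fin n) ℂ) : Matrix (Fin n) (Fin n) ℂ :=
  A - B * Bᴴ * X

/-- The decay rate of a square matrix: minus the largest real part of an eigenvalue. -/
noncomputable def decayRate (M : Matrix (Fin n) (Fin n) ℂ) : ℝ :=
  - sSup (Complex.re '' spectrum ℂ M)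

end Definitions

section Lemmas

variable {n : Type*} [Fintype n] [DecidableEq n]

lemma det_smul_one_add {H : Matrix n n ℂ} (hH : H.IsHermitian) (c : ℂ) :
    (c • (1 : Matrix n n ℂ) + H).det = ∏ i, (c + (hH.eigenvalues i : ℂ)) := by
  have h1 := congrArg (Polynomial.eval (-c)) hH.charpoly_eq
  rw [Polynomial.eval_prod] at h1
  simp only [Polynomial.eval_sub, Polynomial.eval_X, Polynomial.eval_C] at h1
  rw [Matrix.eval_charpoly] at h1
  have h2 : (c • (1 : Matrix n n ℂ) + H) = - (Matrix.scalar n (-c) - H) := by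
    rw [Matrix.scalar_apply, ← Matrix.smul_one_eq_diagonal]
    simp
    abel
  rw [h2, Matrix.det_neg, h1, ← Finset.card_univ, ← Finset.prod_const, ← Finset.prod_mul_distrib]
  apply Finset.prod_congr rfl
  intro i _
  simp
  ring

lemma re_det_le_of_posSemidef {K L : Matrix n n ℂ} (hK : K.PosDef) (hL : L.PosSemidef) :
    (K.det).re ≤ ((K + L).det).re := by
  obtain ⟨R, hRu, hR⟩ : ∃ R : Matrix n n ℂ, IsUnit R ∧ K = Rᴴ * R := by
    obtain ⟨R, hR⟩ := CStarAlgebra.nonneg_iff_eq_star_mul_self.mp hK.posSemidef.nonneg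
    refine ⟨R, ?_, hR⟩
    have := hK.isUnit
    rw [hR] at this
    rw [Matrix.isUnit_iff_isUnit_det] at this ⊢
    rw [Matrix.det_mul] at this
    exact isUnit_of_mul_isUnit_right this
  have hdet : IsUnit R.det := (Matrix.isUnit_iff_isUnit_det R).mp hRu
  have hdet' : IsUnit (Rᴴ).det := by
    rw [Matrix.det_conjTranspose]
    exact hdet.star
  set E : Matrix n n ℂ := (R⁻¹)ᴴ * L * R⁻¹ with hE
  have hEp : E.PosSemidef := hL.conjTranspose_mul_mul_same R⁻¹
  have h1 : K + L = Rᴴ * ((1 : ℂ) • 1 + E) * R := by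
    rw [mul_add, add_mul, hE, one_smul, mul_one, ← hR]
    congr 1
    rw [Matrix.conjTranspose_nonsing_inv]
    rw [← mul_assoc, ← mul_assoc, Matrix.mul_nonsing_inv _ hdet', one_mul, mul_assoc,
      Matrix.nonsing_inv_mul _ hdet, mul_one]
  rw [h1, Matrix.det_mul, Matrix.det_mul, hR, Matrix.det_mul, det_smul_one_add hEp.1]
  have h2 : (Rᴴ).det * (∏ i, (1 + (hEp.1.eigenvalues i : ℂ))) * R.det
      = (((Rᴴ).det * R.det)) * ((∏ i, (1 + (hEp.1.eigenvalues i)) : ℝ) : ℂ) := by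
    push_cast; ring
  rw [h2, Matrix.det_conjTranspose]
  have h3 : star R.det * R.det = ((Complex.normSq R.det : ℝ) : ℂ) := by
    rw [Complex.normSq_eq_conj_mul_self]; rfl
  rw [h3, ← Complex.ofReal_mul, Complex.ofReal_re, Complex.ofReal_re]
  have h4 : (1:ℝ) ≤ ∏ i, (1 + (hEp.1.eigenvalues i)) := by
    have : ∀ i ∈ Finset.univ, (1:ℝ) ≤ (1 + (hEp.1.eigenvalues i)) := by
      intro i _
      have := hEp.eigenvalues_nonneg i
      linarith
    calc (1:ℝ) = ∏ i : n, (1:ℝ) := by simp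
      _ ≤ _ := Finset.prod_le_prod (fun i _ => zero_le_one) this
  nlinarith [Complex.normSq_nonneg R.det]

lemma re_det_smul_one_add {H : Matrix n n ℂ} (hH : H.IsHermitian) (c : ℝ) :
    (((c : ℂ) • (1 : Matrix n n ℂ) + H).det).re = ∏ i, (c + (hH.eigenvalues i)) := by
  rw [det_smul_one_add hH, ← Complex.ofReal_re (∏ i, (c + (hH.eigenvalues i)))]
  push_cast
  rfl

/-- Comparison of two shifts of a singular positive semidefinite matrix. -/
lemma shift_det_le {P : Matrix n n ℂ} (hP : P.PosSemidef) (hdet : P.det = 0) {c d : ℝ}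
    (hc : 0 ≤ c) (hcd : c ≤ d) :
    d * (((c : ℂ) • (1 : Matrix n n ℂ) + P).det).re ≤
      c * (((d : ℂ) • (1 : Matrix n n ℂ) + P).det).re := by
  rw [re_det_smul_one_add hP.1, re_det_smul_one_add hP.1]
  have h0 : ∃ i, hP.1.eigenvalues i = 0 := by
    rw [hP.1.det_eq_prod_eigenvalues, Finset.prod_eq_zero_iff] at hdet
    obtain ⟨i, _, hi⟩ := hdet
    exact ⟨i, Complex.ofReal_eq_zero.mp hi⟩
  obtain ⟨i, hi⟩ := h0
  rw [← Finset.mul_prod_erase Finset.univ _ (Finset.mem_univ i),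
    ← Finset.mul_prod_erase Finset.univ (fun i => d + hP.1.eigenvalues i) (Finset.mem_univ i), hi]
  have h1 : ∏ x ∈ Finset.univ.erase i, (c + hP.1.eigenvalues x) ≤
      ∏ x ∈ Finset.univ.erase i, (d + hP.1.eigenvalues x) := by
    apply Finset.prod_le_prod
    · intro j _
      have := hP.eigenvalues_nonneg j
      linarith
    · intro j _
      linarith
  have hd : 0 ≤ d := hc.trans hcd
  have h2 := mul_le_mul_of_nonneg_left h1 (mul_nonneg hd hc)
  nlinarith [h2]

/-- The return difference identity. -/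
lemma normSq_det_eq {A P X : Matrix n n ℂ} (hA : Aᴴ = -A) (hX : X.PosDef)
    (hR : Aᴴ * X + X * A - X * P * X + 1 = 0) (Z : Matrix n n ℂ) (w : ℝ)
    (hZ : Z = ((w : ℂ) * I) • (1 : Matrix n n ℂ) - A) :
    ((Complex.normSq (Z + P * X).det : ℝ) : ℂ) = (P + Zᴴ * Z).det := by
  have hXh : Xᴴ = X := hX.1
  have hZs : Zᴴ = -Z := by
    rw [hZ, Matrix.conjTranspose_sub, hA, Matrix.conjTranspose_smul]
    simp
    abel
  have hXPX : X * P * X = Z * X - X * Z + 1 := by
    have h1 : X * P * X = Aᴴ * X + X * A + 1 := by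
      have := hR
      rw [sub_add_eq_add_sub, sub_eq_zero] at this
      exact this.symm
    rw [h1, hA, hZ]
    simp only [sub_mul, mul_sub, smul_mul_assoc, mul_smul_comm, one_mul, mul_one]
    simp
    abel
  have e1 : X * (Z + P * X) = Z * X + 1 := by
    rw [mul_add, ← mul_assoc, hXPX]; abel
  have e2 : (1 - X * Z) * (1 + Z * X) = X * (P + Zᴴ * Z) * X := by
    have : X * (P + Zᴴ * Z) * X = X * P * X - X * Z * Z * X := by
      rw [hZs, mul_add, add_mul, neg_mul, mul_neg, neg_mul]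
      simp only [mul_assoc]
      abel
    rw [this, hXPX]
    simp only [sub_mul, mul_add, one_mul, mul_one, mul_assoc]
    abel
  have d1 : X.det * (Z + P * X).det = (1 + Z * X).det := by
    rw [← Matrix.det_mul, e1, add_comm]
  have d2 : star ((1 + Z * X).det) = (1 - X * Z).det := by
    rw [← Matrix.det_conjTranspose]
    congr 1
    rw [Matrix.conjTranspose_add, Matrix.conjTranspose_mul, hXh, hZs]
    simp
    abel
  have d3 : (1 - X * Z).det * (1 + Z * X).det = X.det * (P + Zᴴ * Z).det * X.det := by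
    rw [← Matrix.det_mul, e2, Matrix.det_mul, Matrix.det_mul]
  have hdX : star X.det = X.det := by
    rw [← Matrix.det_conjTranspose, hXh]
  have hX0 : X.det ≠ 0 := hX.det_pos.ne'
  rw [← d2, ← d1, star_mul', hdX] at d3
  have d4 : X.det * X.det * (star (Z + P * X).det * (Z + P * X).det)
      = X.det * X.det * (P + Zᴴ * Z).det := by
    linear_combination d3
  have d5 := mul_left_cancel₀ (mul_ne_zero hX0 hX0) d4
  rw [← d5, Complex.normSq_eq_conj_mul_self]
  rfl

/-- Diagonalisation of `(w - H)²`. -/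
lemma sq_sub_eq {H : Matrix n n ℂ} (hH : H.IsHermitian) (w : ℝ) :
    ((w : ℂ) • (1 : Matrix n n ℂ) - H) * ((w : ℂ) • (1 : Matrix n n ℂ) - H) =
      (hH.eigenvectorUnitary : Matrix n n ℂ) *
        diagonal (fun i => (((w - hH.eigenvalues i) ^ 2 : ℝ) : ℂ)) *
        (hH.eigenvectorUnitary : Matrix n n ℂ)ᴴ := by
  set W : Matrix n n ℂ := (hH.eigenvectorUnitary : Matrix n n ℂ) with hW
  have hWW : Wᴴ * W = 1 := Matrix.mem_unitaryGroup_iff'.mp hH.eigenvectorUnitary.2
  have hWW' : W * Wᴴ = 1 := Matrix.mem_unitaryGroup_iff.mp hH.eigenvectorUnitary.2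
  have hsp : H = W * diagonal (fun i => ((hH.eigenvalues i : ℝ) : ℂ)) * Wᴴ := by
    have := hH.spectral_theorem
    rw [Unitary.conjStarAlgAut_apply] at this
    exact this
  have h1 : (w : ℂ) • (1 : Matrix n n ℂ) - H
      = W * diagonal (fun i => (((w - hH.eigenvalues i) : ℝ) : ℂ)) * Wᴴ := by
    have h2 : (diagonal (fun i => (((w - hH.eigenvalues i) : ℝ) : ℂ)) : Matrix n n ℂ)
        = (w : ℂ) • (1 : Matrix n n ℂ) - diagonal (fun i => ((hH.eigenvalues i : ℝ) : ℂ)) := by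
      rw [Matrix.smul_one_eq_diagonal, Matrix.diagonal_sub]
      push_cast
      rfl
    rw [h2, mul_sub, sub_mul, ← hsp, mul_smul_comm, mul_one, smul_mul_assoc, hWW']
  rw [h1]
  have h3 : (diagonal (fun i => (((w - hH.eigenvalues i) ^ 2 : ℝ) : ℂ)) : Matrix n n ℂ)
      = diagonal (fun i => (((w - hH.eigenvalues i) : ℝ) : ℂ)) *
        diagonal (fun i => (((w - hH.eigenvalues i) : ℝ) : ℂ)) := by
    rw [Matrix.diagonal_mul_diagonal]
    congr 1
    funext i
    push_cast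
    ring
  rw [h3]
  calc _ = W * diagonal (fun i => (((w - hH.eigenvalues i) : ℝ) : ℂ)) * (Wᴴ * W) *
        diagonal (fun i => (((w - hH.eigenvalues i) : ℝ) : ℂ)) * Wᴴ := by
        simp only [mul_assoc]
    _ = _ := by rw [hWW]; simp only [mul_assoc, one_mul]

lemma smul_one_sub_sq_posSemidef {H : Matrix n n ℂ} (hH : H.IsHermitian) (w c : ℝ)
    (h : ∀ i, (w - hH.eigenvalues i) ^ 2 ≤ c) :
    ((c : ℂ) • (1 : Matrix n n ℂ) -
      ((w : ℂ) • (1 : Matrix n n ℂ) - H) * ((w : ℂ) • (1 : Matrix n n ℂ) - H)).PosSemidef := by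
  rw [sq_sub_eq hH]
  set W : Matrix n n ℂ := (hH.eigenvectorUnitary : Matrix n n ℂ) with hW
  have hWW' : W * Wᴴ = 1 := Matrix.mem_unitaryGroup_iff.mp hH.eigenvectorUnitary.2
  have h1 : (c : ℂ) • (1 : Matrix n n ℂ) - W * diagonal (fun i =>
      (((w - hH.eigenvalues i) ^ 2 : ℝ) : ℂ)) * Wᴴ
      = W * diagonal (fun i => (((c - (w - hH.eigenvalues i) ^ 2) : ℝ) : ℂ)) * Wᴴ := by
    have h2 : (diagonal (fun i => (((c - (w - hH.eigenvalues i) ^ 2) : ℝ) : ℂ)) : Matrix n n ℂ)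
        = (c : ℂ) • (1 : Matrix n n ℂ) -
          diagonal (fun i => (((w - hH.eigenvalues i) ^ 2 : ℝ) : ℂ)) := by
      rw [Matrix.smul_one_eq_diagonal, Matrix.diagonal_sub]
      push_cast
      rfl
    rw [h2, mul_sub, sub_mul, mul_smul_comm, mul_one, smul_mul_assoc, hWW']
  rw [h1]
  apply PosSemidef.mul_mul_conjTranspose_same
  apply PosSemidef.diagonal
  intro i
  have h3 := sub_nonneg.mpr (h i)
  show (0 : ℂ) ≤ (((c - (w - hH.eigenvalues i) ^ 2) : ℝ) : ℂ)
  exact_mod_cast h3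

lemma sq_sub_smul_one_posSemidef {H : Matrix n n ℂ} (hH : H.IsHermitian) (w c : ℝ)
    (h : ∀ i, c ≤ (w - hH.eigenvalues i) ^ 2) :
    (((w : ℂ) • (1 : Matrix n n ℂ) - H) * ((w : ℂ) • (1 : Matrix n n ℂ) - H) -
      (c : ℂ) • (1 : Matrix n n ℂ)).PosSemidef := by
  rw [sq_sub_eq hH]
  set W : Matrix n n ℂ := (hH.eigenvectorUnitary : Matrix n n ℂ) with hW
  have hWW' : W * Wᴴ = 1 := Matrix.mem_unitaryGroup_iff.mp hH.eigenvectorUnitary.2
  have h1 : W * diagonal (fun i =>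
      (((w - hH.eigenvalues i) ^ 2 : ℝ) : ℂ)) * Wᴴ - (c : ℂ) • (1 : Matrix n n ℂ)
      = W * diagonal (fun i => ((((w - hH.eigenvalues i) ^ 2 - c) : ℝ) : ℂ)) * Wᴴ := by
    have h2 : (diagonal (fun i => ((((w - hH.eigenvalues i) ^ 2 - c) : ℝ) : ℂ)) : Matrix n n ℂ)
        = diagonal (fun i => (((w - hH.eigenvalues i) ^ 2 : ℝ) : ℂ)) -
          (c : ℂ) • (1 : Matrix n n ℂ) := by
      rw [Matrix.smul_one_eq_diagonal, Matrix.diagonal_sub]
      push_cast
      rfl
    rw [h2, mul_sub, sub_mul, mul_smul_comm, mul_one, smul_mul_assoc, hWW']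
  rw [h1]
  apply PosSemidef.mul_mul_conjTranspose_same
  apply PosSemidef.diagonal
  intro i
  have h3 := sub_nonneg.mpr (h i)
  show (0 : ℂ) ≤ ((((w - hH.eigenvalues i) ^ 2 - c) : ℝ) : ℂ)
  exact_mod_cast h3

/-- Growth of a product of distances to points to the left of a vertical line. -/
lemma multiset_prod_norm_le (s : Multiset ℂ) {g : ℝ} (hg : 0 < g) (hs : ∀ z ∈ s, z.re ≤ -g)
    (w₀ w₁ : ℝ) (r : ℝ) (hr : 1 + |w₁ - w₀| / g ≤ r) :
    (s.map (fun z => ‖(w₁ : ℂ) * I - z‖)).prod ≤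
      r ^ (Multiset.card s) * (s.map (fun z => ‖(w₀ : ℂ) * I - z‖)).prod := by
  induction s using Multiset.induction_on with
  | empty => simp
  | cons a s ih =>
    have ha : a.re ≤ -g := hs a (Multiset.mem_cons_self a s)
    have ih' := ih (fun z hz => hs z (Multiset.mem_cons_of_mem hz))
    rw [Multiset.map_cons, Multiset.map_cons, Multiset.prod_cons, Multiset.prod_cons,
      Multiset.card_cons, pow_succ]
    have h1 : g ≤ ‖(w₀ : ℂ) * I - a‖ := by
      have h2 := Complex.abs_re_le_norm ((w₀ : ℂ) * I - a)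
      have h3 : ((w₀ : ℂ) * I - a).re = - a.re := by simp
      rw [h3] at h2
      have := le_abs_self (-a.re)
      linarith
    have h4 : ‖(w₁ : ℂ) * I - a‖ ≤ r * ‖(w₀ : ℂ) * I - a‖ := by
      have h5 : (w₁ : ℂ) * I - a = ((w₀ : ℂ) * I - a) + (((w₁ - w₀ : ℝ) : ℂ) * I) := by
        push_cast; ring
      have h6 : ‖(((w₁ - w₀ : ℝ) : ℂ) * I)‖ = |w₁ - w₀| := by
        rw [norm_mul, Complex.norm_real, Complex.norm_I, mul_one, Real.norm_eq_abs]
      have h7 : ‖(w₁ : ℂ) * I - a‖ ≤ ‖(w₀ : ℂ) * I - a‖ + |w₁ - w₀| := by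
        rw [h5]
        exact (norm_add_le _ _).trans (by rw [h6])
      have h8 : |w₁ - w₀| ≤ |w₁ - w₀| / g * ‖(w₀ : ℂ) * I - a‖ := by
        rw [div_mul_eq_mul_div, le_div_iff₀ hg]
        exact mul_le_mul_of_nonneg_left h1 (abs_nonneg _)
      nlinarith [norm_nonneg ((w₀ : ℂ) * I - a)]
    have hr0 : 0 ≤ r := by
      have : 0 ≤ |w₁ - w₀| / g := by positivity
      linarith
    have hp0 : 0 ≤ (s.map (fun z => ‖(w₁ : ℂ) * I - z‖)).prod := by
      apply Multiset.prod_nonneg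
      intro x hx
      obtain ⟨z, _, rfl⟩ := Multiset.mem_map.mp hx
      exact norm_nonneg _
    calc ‖(w₁ : ℂ) * I - a‖ * (s.map (fun z => ‖(w₁ : ℂ) * I - z‖)).prod
        ≤ (r * ‖(w₀ : ℂ) * I - a‖) *
          (r ^ (Multiset.card s) * (s.map (fun z => ‖(w₀ : ℂ) * I - z‖)).prod) := by
          apply mul_le_mul h4 ih' hp0
          exact mul_nonneg hr0 (norm_nonneg _)
      _ = _ := by ring

lemma norm_det_growth (M : Matrix n n ℂ) {g : ℝ} (hg : 0 < g)
    (hM : ∀ z ∈ spectrum ℂ M, z.re ≤ -g) (w₀ w₁ r : ℝ) (hr : 1 + |w₁ - w₀| / g ≤ r) :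
    ‖(((w₁ : ℂ) * I) • (1 : Matrix n n ℂ) - M).det‖ ≤
      r ^ (Fintype.card n) * ‖(((w₀ : ℂ) * I) • (1 : Matrix n n ℂ) - M).det‖ := by
  have hsplit : M.charpoly.Splits := IsAlgClosed.splits _
  have hroots : ∀ z ∈ M.charpoly.roots, z.re ≤ -g := by
    intro z hz
    apply hM
    rw [Matrix.mem_spectrum_iff_isRoot_charpoly]
    exact Polynomial.isRoot_of_mem_roots hz
  have hcard : Multiset.card M.charpoly.roots = Fintype.card n := by
    rw [Polynomial.splits_iff_card_roots.mp hsplit, Matrix.charpoly_natDegree_eq_dim]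
  have hev : ∀ c : ℂ, (c • (1 : Matrix n n ℂ) - M).det
      = (M.charpoly.roots.map (fun z => c - z)).prod := by
    intro c
    have h1 := hsplit.eval_eq_prod_roots_of_monic (Matrix.charpoly_monic M) c
    rw [← h1, Matrix.eval_charpoly, Matrix.scalar_apply, Matrix.smul_one_eq_diagonal]
  have hnorm : ∀ c : ℂ, ‖(c • (1 : Matrix n n ℂ) - M).det‖
      = (M.charpoly.roots.map (fun z => ‖c - z‖)).prod := by
    intro c
    rw [hev]
    have h1 := map_multiset_prod (normHom : ℂ →*₀ ℝ) (M.charpoly.roots.map (fun z => c - z))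
    rw [Multiset.map_map] at h1
    exact h1
  rw [hnorm, hnorm, ← hcard]
  exact multiset_prod_norm_le _ hg hroots w₀ w₁ r hr

end Lemmas

section Main

variable {n : Type*} [Fintype n] [DecidableEq n]

/-- The core inequality. -/
lemma core [Nonempty n] {A P X : Matrix n n ℂ} (hA : Aᴴ = -A) (hP : P.PosSemidef)
    (hPdet : P.det = 0) (hX : X.PosDef) (hR : Aᴴ * X + X * A - X * P * X + 1 = 0) {g : ℝ}
    (hg : 0 < g) (hM : ∀ z ∈ spectrum ℂ (A - P * X), z.re ≤ -g) (t : ℝ)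
    (ht : Metric.diam (spectrum ℂ A) / 2 ≤ t - Metric.diam (spectrum ℂ A) / 2) :
    (t - Metric.diam (spectrum ℂ A) / 2) ^ 2 ≤
      ((1 + t / g) ^ (Fintype.card n)) ^ 2 * (Metric.diam (spectrum ℂ A) / 2) ^ 2 := by
  set D : ℝ := Metric.diam (spectrum ℂ A) with hD
  have hD0 : 0 ≤ D := Metric.diam_nonneg
  -- the Hermitian matrix `H = -i A`
  set H : Matrix n n ℂ := (-I) • A with hHdef
  have hH : H.IsHermitian := by
    rw [Matrix.IsHermitian, hHdef, Matrix.conjTranspose_smul, hA]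
    simp
  have hAH : A = I • H := by
    rw [hHdef, smul_smul]
    simp
  have hspec : ∀ i, I * (hH.eigenvalues i : ℂ) ∈ spectrum ℂ A := by
    intro i
    have h1 : ((hH.eigenvalues i : ℝ) : ℂ) ∈ spectrum ℂ H := by
      have := hH.eigenvalues_mem_spectrum_real i
      rw [← spectrum.preimage_algebraMap ℂ] at this
      exact this
    have h2 := (spectrum.smul_mem_smul_iff (a := H) (s := ((hH.eigenvalues i : ℝ) : ℂ))
      (r := Units.mk0 I Complex.I_ne_zero)).mpr h1
    rw [hAH]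
    exact h2
  have hbdd : Bornology.IsBounded (spectrum ℂ A) := (A.finite_spectrum).isBounded
  have hdist : ∀ i j, |hH.eigenvalues i - hH.eigenvalues j| ≤ D := by
    intro i j
    have h1 := Metric.dist_le_diam_of_mem hbdd (hspec i) (hspec j)
    rw [Complex.dist_eq, ← mul_sub, norm_mul, Complex.norm_I, one_mul,
      ← Complex.ofReal_sub, Complex.norm_real, Real.norm_eq_abs] at h1
    exact h1
  obtain ⟨imax, himax⟩ := Finite.exists_max hH.eigenvalues
  obtain ⟨imin, himin⟩ := Finite.exists_min hH.eigenvalues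
  set w₀ : ℝ := (hH.eigenvalues imax + hH.eigenvalues imin) / 2 with hw₀
  have hmm := le_trans (le_abs_self _) (hdist imax imin)
  have hc : ∀ i, (w₀ - hH.eigenvalues i) ^ 2 ≤ (D / 2) ^ 2 := by
    intro i
    have h1 := himax i
    have h2 := himin i
    apply sq_le_sq'
    · rw [hw₀]; linarith
    · rw [hw₀]; linarith
  have hd : ∀ i, (t - D / 2) ^ 2 ≤ ((w₀ + t) - hH.eigenvalues i) ^ 2 := by
    intro i
    have h1 := himax i
    have h2 := himin i
    have h3 : -(D / 2) ≤ w₀ - hH.eigenvalues i := by rw [hw₀]; linarith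
    apply pow_le_pow_left₀ (by linarith)
    linarith
  -- `Zᴴ Z = (w - H)²`
  have hZ : ∀ w : ℝ, ((((w : ℂ) * I) • (1 : Matrix n n ℂ) - A)ᴴ *
      (((w : ℂ) * I) • (1 : Matrix n n ℂ) - A)) =
      ((w : ℂ) • (1 : Matrix n n ℂ) - H) * ((w : ℂ) • (1 : Matrix n n ℂ) - H) := by
    intro w
    have h1 : (((w : ℂ) * I) • (1 : Matrix n n ℂ) - A) = I • ((w : ℂ) • (1 : Matrix n n ℂ) - H) := by
      rw [smul_sub, ← hAH, smul_smul, mul_comm I]
    have h2 : (((w : ℂ) • (1 : Matrix n n ℂ) - H))ᴴ = ((w : ℂ) • (1 : Matrix n n ℂ) - H) := by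
      rw [Matrix.conjTranspose_sub, hH.eq, Matrix.conjTranspose_smul]
      simp
    rw [h1, Matrix.conjTranspose_smul, h2, smul_mul_assoc, mul_smul_comm, smul_smul]
    simp
  set N : ℝ → ℝ := fun w =>
    (P + (((w : ℂ) * I) • (1 : Matrix n n ℂ) - A)ᴴ * (((w : ℂ) * I) • (1 : Matrix n n ℂ) - A)).det.re
    with hN
  have hNeq : ∀ w : ℝ, N w = ‖(((w : ℂ) * I) • (1 : Matrix n n ℂ) - (A - P * X)).det‖ ^ 2 := by
    intro w
    have h1 := normSq_det_eq hA hX hR _ w rfl
    rw [hN]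
    simp only
    rw [← h1, Complex.ofReal_re, Complex.normSq_eq_norm_sq]
    congr 3
    abel
  have hne : (((w₀ : ℂ) * I) • (1 : Matrix n n ℂ) - (A - P * X)).det ≠ 0 := by
    intro h0
    have h1 : (w₀ : ℂ) * I ∈ spectrum ℂ (A - P * X) := by
      rw [Matrix.mem_spectrum_iff_isRoot_charpoly, Polynomial.IsRoot, Matrix.eval_charpoly,
        Matrix.scalar_apply, ← Matrix.smul_one_eq_diagonal]
      exact h0
    have h2 := hM _ h1
    simp at h2
    linarith
  have hN0 : 0 < N w₀ := by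
    rw [hNeq]
    positivity
  -- upper bound for `N w₀`
  have hPSD : ∀ w : ℝ, (P + (((w : ℂ) * I) • (1 : Matrix n n ℂ) - A)ᴴ *
      (((w : ℂ) * I) • (1 : Matrix n n ℂ) - A)).PosSemidef := fun w =>
    hP.add (Matrix.posSemidef_conjTranspose_mul_self _)
  have hup : N w₀ ≤ ((((((D / 2) ^ 2 : ℝ)) : ℂ) • (1 : Matrix n n ℂ) + P).det).re := by
    have h1 : (P + (((w₀ : ℂ) * I) • (1 : Matrix n n ℂ) - A)ᴴ *
      (((w₀ : ℂ) * I) • (1 : Matrix n n ℂ) - A)).PosDef := by
      rw [(hPSD w₀).posDef_iff_det_ne_zero]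
      intro h0
      have : N w₀ = 0 := by rw [hN]; simp only; rw [h0]; simp
      linarith
    have h2 := re_det_le_of_posSemidef h1 (smul_one_sub_sq_posSemidef hH w₀ ((D / 2) ^ 2) hc)
    rw [hZ w₀] at h2
    have h3 : P + ((w₀ : ℂ) • (1 : Matrix n n ℂ) - H) * ((w₀ : ℂ) • (1 : Matrix n n ℂ) - H) +
      (((((D / 2) ^ 2 : ℝ)) : ℂ) • (1 : Matrix n n ℂ) -
        ((w₀ : ℂ) • (1 : Matrix n n ℂ) - H) * ((w₀ : ℂ) • (1 : Matrix n n ℂ) - H)) =
        ((((D / 2) ^ 2 : ℝ)) : ℂ) • (1 : Matrix n n ℂ) + P := by abel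
    rw [h3] at h2
    rw [hN]
    simp only
    rw [hZ w₀]
    exact h2
  rcases (sq_nonneg (t - D / 2)).eq_or_lt with hd0 | hd0
  · rw [← hd0]; positivity
  -- lower bound for `N w₁`
  have hlow : (((((((t - D / 2) ^ 2 : ℝ)) : ℂ) • (1 : Matrix n n ℂ) + P).det).re) ≤ N (w₀ + t) := by
    have h1 : (((((t - D / 2) ^ 2 : ℝ)) : ℂ) • (1 : Matrix n n ℂ) + P).PosDef := by
      apply Matrix.PosDef.add_posSemidef _ hP
      apply Matrix.PosDef.one.smul
      exact_mod_cast hd0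
    have h2 := re_det_le_of_posSemidef h1
      (sq_sub_smul_one_posSemidef hH (w₀ + t) ((t - D / 2) ^ 2) hd)
    rw [hN]
    simp only
    rw [hZ (w₀ + t)]
    have h3 : ((((t - D / 2) ^ 2 : ℝ)) : ℂ) • (1 : Matrix n n ℂ) + P +
      ((((w₀ + t : ℝ) : ℂ) • (1 : Matrix n n ℂ) - H) * (((w₀ + t : ℝ) : ℂ) • (1 : Matrix n n ℂ) - H)
        - ((((t - D / 2) ^ 2 : ℝ)) : ℂ) • (1 : Matrix n n ℂ)) =
        P + (((w₀ + t : ℝ) : ℂ) • (1 : Matrix n n ℂ) - H) *
          (((w₀ + t : ℝ) : ℂ) • (1 : Matrix n n ℂ) - H) := by abel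
    rw [h3] at h2
    exact h2
  have hshift := shift_det_le hP hPdet (c := (D / 2) ^ 2) (d := (t - D / 2) ^ 2) (sq_nonneg _)
    (pow_le_pow_left₀ (by linarith) ht 2)
  -- growth bound
  have hgrow := norm_det_growth (A - P * X) hg hM w₀ (w₀ + t) (1 + t / g) (by
    rw [add_sub_cancel_left, abs_of_nonneg (by linarith)])
  have hgrow2 : N (w₀ + t) ≤ ((1 + t / g) ^ (Fintype.card n)) ^ 2 * N w₀ := by
    rw [hNeq, hNeq, ← mul_pow]
    exact pow_le_pow_left₀ (norm_nonneg _) hgrow 2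
  have hfin : (t - D / 2) ^ 2 * N w₀ ≤
      (((1 + t / g) ^ (Fintype.card n)) ^ 2 * (D / 2) ^ 2) * N w₀ := by
    calc (t - D / 2) ^ 2 * N w₀ ≤ (t - D / 2) ^ 2 *
          ((((((D / 2) ^ 2 : ℝ)) : ℂ) • (1 : Matrix n n ℂ) + P).det).re :=
          mul_le_mul_of_nonneg_left hup (sq_nonneg _)
      _ ≤ (D / 2) ^ 2 * ((((((t - D / 2) ^ 2 : ℝ)) : ℂ) • (1 : Matrix n n ℂ) + P).det).re := hshift
      _ ≤ (D / 2) ^ 2 * N (w₀ + t) := mul_le_mul_of_nonneg_left hlow (sq_nonneg _)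
      _ ≤ (D / 2) ^ 2 * (((1 + t / g) ^ (Fintype.card n)) ^ 2 * N w₀) :=
          mul_le_mul_of_nonneg_left hgrow2 (sq_nonneg _)
      _ = _ := by ring
  exact le_of_mul_le_mul_right hfin hN0

end Main

/-- **Q1 of MP_25d917_an is true**, with the explicit constant `C(A) = 2 n Δ(A)`, where `Δ(A)` is
the diameter of the spectrum of `A`. -/
theorem result (n m : ℕ) (hmn : m < n) (A : Matrix (Fin n) (Fin n) ℂ) (hA : Aᴴ = -A)
    (B : Matrix (Fin n) (Fin m) ℂ) (_hctrl : Controllable A B)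
    (X : Matrix (Fin n) (Fin n) ℂ) (hX : IsRiccatiSolution A B X) :
    decayRate (closedLoop A B X) ≤ 2 * n * Metric.diam (spectrum ℂ A) := by
  by_contra hcon
  rw [not_le] at hcon
  set D : ℝ := Metric.diam (spectrum ℂ A) with hD
  have hD0 : 0 ≤ D := Metric.diam_nonneg
  set g : ℝ := decayRate (closedLoop A B X) with hgdef
  have hg : 0 < g := lt_of_le_of_lt (by positivity) hcon
  have : Nonempty (Fin n) := ⟨⟨0, by omega⟩⟩
  have hM : ∀ z ∈ spectrum ℂ (A - (B * Bᴴ) * X), z.re ≤ -g := by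
    intro z hz
    have h1 : z.re ≤ sSup (Complex.re '' spectrum ℂ (closedLoop A B X)) := by
      apply le_csSup
      · exact ((Matrix.finite_spectrum _).image _).bddAbove
      · exact ⟨z, hz, rfl⟩
    rw [hgdef, decayRate, neg_neg]
    exact h1
  have hP : (B * Bᴴ).PosSemidef := Matrix.posSemidef_self_mul_conjTranspose B
  have hPdet : (B * Bᴴ).det = 0 := by
    by_contra h0
    have h1 : IsUnit (B * Bᴴ) := by
      rw [Matrix.isUnit_iff_isUnit_det]
      exact isUnit_iff_ne_zero.mpr h0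
    have h2 := Matrix.rank_of_isUnit _ h1
    have h3 := (Matrix.rank_mul_le_left B Bᴴ).trans (Matrix.rank_le_width B)
    rw [h2, Fintype.card_fin] at h3
    omega
  have hR : Aᴴ * X + X * A - X * (B * Bᴴ) * X + 1 = 0 := by
    rw [← Matrix.mul_assoc X B Bᴴ]
    exact hX.2
  rcases hD0.eq_or_lt with h0 | h0
  · have h1 := core hA hP hPdet hX.1 hR hg hM 1 (by rw [← hD, ← h0]; norm_num)
    rw [← hD, ← h0] at h1
    norm_num at h1
  · have h1 := core hA hP hPdet hX.1 hR hg hM (2 * D) (by rw [← hD]; linarith)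
    rw [← hD, Fintype.card_fin] at h1
    have h2 : (1 + 2 * D / g) ^ n ≤ Real.exp 1 := by
      calc (1 + 2 * D / g) ^ n ≤ (Real.exp (2 * D / g)) ^ n := by
            apply pow_le_pow_left₀ (by positivity)
            rw [add_comm]
            exact Real.add_one_le_exp _
        _ = Real.exp (n * (2 * D / g)) := by rw [← Real.exp_nat_mul]
        _ ≤ Real.exp 1 := by
            apply Real.exp_le_exp.mpr
            rw [← mul_div_assoc, div_le_one hg]
            linarith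
    have h3 : Real.exp 1 < 2.7182818286 := Real.exp_one_lt_d9
    have h4 : ((1 + 2 * D / g) ^ n) ^ 2 ≤ 8 := by
      have : (0:ℝ) ≤ (1 + 2 * D / g) ^ n := by positivity
      nlinarith
    nlinarith [mul_pos h0 h0]

end Pool.Agent.Results.MP_25d917_an.DecayBound
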